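import Pool.Agent.H.MP_ea20df_gt.A

set_option autoImplicit false
open Cardinal Set TopologicalSpace

namespace Pool.Agent.Results.MP_ea20df_gt.Base

universe u

def Pseudocompact (Y : Type u) [TopologicalSpace Y] : Prop :=
  ∀ f : Y → ℝ, Continuous f → ∃ M : ℝ, ∀ y, |f y| ≤ M

def LocPseudocompact (X : Type u) [TopologicalSpace X] : Prop :=
  ∀ x : X, ∃ N : Set X, IsOpen N ∧ x ∈ N ∧ Pseudocompact (closure N)

def CCFamily {X : Type u} (S : Set (Set X)) : Prop :=
  ∀ B : ℕ → Set X, (∀ n, B n ∈ S) → (∀ n, B (n + 1) ⊆ B n) → (⋂ n, B n).Nonempty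

def Telgarsky (X : Type u) [TopologicalSpace X] : Prop :=
  ∃ S : Set (Set X), IsTopologicalBasis S ∧ CCFamily S

theorem result (X : Type u) [TopologicalSpace X] [T35Space X] (hX : LocPseudocompact X)
    (U : Set (Set X)) (h1 : IsTopologicalBasis U) (h2 : #U ≤ continuum) : Telgarsky X :=
  H.MP_ea20df_gt.telg hX h1 h2

end Pool.Agent.Results.MP_ea20df_gt.Base
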