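import Pool.Agent.H.MP_ea20df_gt.A

set_option autoImplicit false
open Cardinal Set TopologicalSpace

namespace Pool.Agent.Results.MP_ea20df_gt.PiBase

universe u

def Pseudocompact (Y : Type u) [TopologicalSpace Y] : Prop :=
  ∀ f : Y → ℝ, Continuous f → ∃ M : ℝ, ∀ y, |f y| ≤ M

def LocPseudocompact (X : Type u) [TopologicalSpace X] : Prop :=
  ∀ x : X, ∃ N : Set X, IsOpen N ∧ x ∈ N ∧ Pseudocompact (closure N)

def CCFamily {X : Type u} (S : Set (Set X)) : Prop :=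
  ∀ B : ℕ → Set X, (∀ n, B n ∈ S) → (∀ n, B (n + 1) ⊆ B n) → (⋂ n, B n).Nonempty

def Pseudobase {X : Type u} [TopologicalSpace X] (S : Set (Set X)) : Prop :=
  (∀ B ∈ S, (interior B).Nonempty) ∧ ∀ V : Set X, IsOpen V → V.Nonempty → ∃ B ∈ S, B ⊆ V

def Oxtoby (X : Type u) [TopologicalSpace X] : Prop :=
  ∃ S : Set (Set X), (∀ B ∈ S, IsOpen B) ∧ Pseudobase S ∧ CCFamily S

def SmallPiWeight {X : Type u} [TopologicalSpace X] (W : Set X) : Prop :=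
  ∃ P : Set (Set X), #P ≤ continuum ∧ (∀ B ∈ P, IsOpen B ∧ B.Nonempty ∧ B ⊆ W) ∧
    ∀ V : Set X, IsOpen V → V.Nonempty → V ⊆ W → ∃ B ∈ P, B ⊆ V

theorem result (X : Type u) [TopologicalSpace X] [T35Space X] (hX : LocPseudocompact X)
    (h : ∀ V : Set X, IsOpen V → V.Nonempty →
      ∃ W : Set X, IsOpen W ∧ W.Nonempty ∧ W ⊆ V ∧ SmallPiWeight W) : Oxtoby X := by
  obtain ⟨S, ⟨s1, s2⟩, s3⟩ := H.MP_ea20df_gt.oxt hX fun V v1 v2 => by
    obtain ⟨W, w1, w2, w3, P, p1, p2⟩ := h V v1 v2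
    exact ⟨W, w1, w2, w3, P, p2, p1⟩
  exact ⟨S, fun B hB => (s1 B hB).1, ⟨fun B hB => (s1 B hB).1.interior_eq.symm ▸ (s1 B hB).2.1,
    fun V v1 v2 => s2 V v1 v2 (subset_univ _)⟩, s3⟩

end Pool.Agent.Results.MP_ea20df_gt.PiBase
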